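import Pool.Agent.Helper7.PX.Goals2

/-! # PX, packet ZE: monotone chains of gaps -/

set_option autoImplicit false

open Finset Filter Topology

open scoped Classical

namespace Pool.Agent.Helper16.PX

open Pool.Agent.Helper7.PX (np Wd StmtFB StmtZE)

/-- the first `k + 1` primes after `n` and their blocks -/
theorem ext (k n Y l : ℕ) (H : Finset ℕ)
    (hW : ∀ j ∈ Icc 1 Y, (n + j).Prime → ∃ h ∈ H, j ∈ Ioc h (h + l))
    (h1 : ∀ h ∈ H, np n h l ≤ 1) (hd : ∀ h ∈ H, ∀ h' ∈ H, h < h' → h + l ≤ h')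
    (hY : ∀ h ∈ H, h + l ≤ Y) (hk : k + 1 ≤ ∑ h ∈ H, np n h l) :
    ∃ (s : ℕ) (f : ℕ → ℕ), n < Nat.nth Nat.Prime s ∧ Nat.nth Nat.Prime (s + k) ≤ n + Y ∧
      (∀ j ≤ k, f j ∈ H ∧ n + f j < Nat.nth Nat.Prime (s + j) ∧
        Nat.nth Nat.Prime (s + j) ≤ n + f j + l) ∧
      ∀ j < k, f j < f (j + 1) := by
  have hinf : (setOf Nat.Prime).Infinite := Nat.infinite_setOf_prime
  have hmono : StrictMono (Nat.nth Nat.Prime) := Nat.nth_strictMono hinf
  -- many primes in the window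
  have hc : k + 1 ≤ ((Icc 1 Y).filter (fun j => (n + j).Prime)).card := by
    refine hk.trans ?_
    have hb : (H.biUnion (fun h => (Ioc h (h + l)).filter (fun j => (n + j).Prime))).card =
        ∑ h ∈ H, np n h l := by
      rw [card_biUnion]
      · rfl
      · intro h hh h' hh' hne
        rw [Function.onFun, disjoint_left]
        intro j hj hj'
        rw [mem_filter, mem_Ioc] at hj hj'
        rcases lt_or_gt_of_ne hne with hlt | hlt
        · have := hd h hh h' hh' hlt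
          omega
        · have := hd h' hh' h hh hlt
          omega
    rw [← hb]
    refine card_le_card ?_
    intro j hj
    rw [mem_biUnion] at hj
    obtain ⟨h, hh, hj⟩ := hj
    rw [mem_filter, mem_Ioc] at hj
    have := hY h hh
    rw [mem_filter, mem_Icc]
    exact ⟨⟨by omega, by omega⟩, hj.2⟩
  obtain ⟨s, hs⟩ : ∃ s : ℕ, s = Nat.count Nat.Prime (n + 1) := ⟨_, rfl⟩
  have hcount : s + k < Nat.count Nat.Prime (n + 1 + Y) := by
    rw [Nat.count_add, ← hs]
    have h2 : Nat.count (fun j => Nat.Prime (n + 1 + j)) Y =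
        ((Icc 1 Y).filter (fun j => (n + j).Prime)).card := by
      rw [Nat.count_eq_card_filter_range]
      refine card_bij (fun j _ => j + 1) ?_ ?_ ?_
      · intro j hj
        rw [mem_filter, mem_range] at hj
        rw [mem_filter, mem_Icc]
        refine ⟨⟨by omega, by omega⟩, ?_⟩
        have h3 : n + (j + 1) = n + 1 + j := by omega
        rw [h3]
        exact hj.2
      · intro a _ b _ hab
        omega
      · intro b hb
        rw [mem_filter, mem_Icc] at hb
        refine ⟨b - 1, ?_, by omega⟩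
        rw [mem_filter, mem_range]
        refine ⟨by omega, ?_⟩
        have h3 : n + 1 + (b - 1) = n + b := by omega
        rw [h3]
        exact hb.2
    rw [h2]
    omega
  have hs1 : n < Nat.nth Nat.Prime s := by
    by_contra hcon
    have h3 : Nat.nth Nat.Prime s < n + 1 := by omega
    rw [← Nat.lt_nth_iff_count_lt hinf] at h3
    omega
  have hs2 : Nat.nth Nat.Prime (s + k) ≤ n + Y := by
    have h3 := (Nat.lt_nth_iff_count_lt hinf).1 hcount
    omega
  have hf : ∀ j, j ≤ k → ∃ h, h ∈ H ∧ n + h < Nat.nth Nat.Prime (s + j) ∧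
      Nat.nth Nat.Prime (s + j) ≤ n + h + l := by
    intro j hj
    have h3 : Nat.nth Nat.Prime s ≤ Nat.nth Nat.Prime (s + j) := hmono.monotone (by omega)
    have h4 : Nat.nth Nat.Prime (s + j) ≤ Nat.nth Nat.Prime (s + k) := hmono.monotone (by omega)
    have h5 : n + (Nat.nth Nat.Prime (s + j) - n) = Nat.nth Nat.Prime (s + j) := by omega
    obtain ⟨h, hh, h6⟩ := hW (Nat.nth Nat.Prime (s + j) - n)
      (by rw [mem_Icc]; omega) (by rw [h5]; exact Nat.prime_nth_prime _)
    rw [mem_Ioc] at h6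
    exact ⟨h, hh, by omega, by omega⟩
  choose! f hf using hf
  refine ⟨s, f, hs1, hs2, hf, fun j hj => ?_⟩
  obtain ⟨a1, a2, a3⟩ := hf j hj.le
  obtain ⟨b1, b2, b3⟩ := hf (j + 1) hj
  have hlt : Nat.nth Nat.Prime (s + j) < Nat.nth Nat.Prime (s + (j + 1)) := hmono (by omega)
  rcases lt_trichotomy (f j) (f (j + 1)) with h | h | h
  · exact h
  · exfalso
    have h3 := h1 (f j) a1
    unfold Pool.Agent.Helper7.PX.np at h3
    rw [card_le_one] at h3
    rw [← h] at b2 b3
    have h4 := h3 (Nat.nth Nat.Prime (s + j) - n) (by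
      rw [mem_filter, mem_Ioc]
      refine ⟨by omega, ?_⟩
      rw [show n + (Nat.nth Nat.Prime (s + j) - n) = Nat.nth Nat.Prime (s + j) by omega]
      exact Nat.prime_nth_prime _) (Nat.nth Nat.Prime (s + (j + 1)) - n) (by
      rw [mem_filter, mem_Ioc]
      refine ⟨by omega, ?_⟩
      rw [show n + (Nat.nth Nat.Prime (s + (j + 1)) - n) = Nat.nth Nat.Prime (s + (j + 1)) by omega]
      exact Nat.prime_nth_prime _)
    omega
  · exfalso
    have h3 := hd (f (j + 1)) b1 (f j) a1 h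
    omega

/-- counting -/
theorem count3 (N : Finset ℕ) (y k x : ℕ) (Q : ℕ → Prop) (hx : ∀ n ∈ N, n ≤ x)
    (h : ∀ n ∈ N, ∃ s : ℕ, n < Nat.nth Nat.Prime s ∧ Nat.nth Nat.Prime (s + k) ≤ n + y ∧ Q s) :
    ∃ S : Finset ℕ, N.card ≤ y * S.card ∧ ∀ s ∈ S, Nat.nth Nat.Prime (s + k) ≤ x + y ∧ Q s := by
  choose! f h1 h2 h3 using h
  refine ⟨N.image f, ?_, ?_⟩
  · refine card_le_mul_card_image N y ?_
    intro s hs
    have hmono : StrictMono (Nat.nth Nat.Prime) := Nat.nth_strictMono Nat.infinite_setOf_prime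
    have h4 : N.filter (fun n => f n = s) ⊆
        Ico (Nat.nth Nat.Prime s - y) (Nat.nth Nat.Prime s) := by
      intro n hn
      rw [mem_filter] at hn
      obtain ⟨hn1, hn2⟩ := hn
      have h5 := h1 n hn1
      have h6 := h2 n hn1
      rw [hn2] at h5 h6
      have h7 : Nat.nth Nat.Prime s ≤ Nat.nth Nat.Prime (s + k) := hmono.monotone (by omega)
      rw [mem_Ico]
      omega
    refine (card_le_card h4).trans ?_
    rw [Nat.card_Ico]
    omega
  · intro s hs
    obtain ⟨n, hn, rfl⟩ := mem_image.1 hs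
    have h5 := h1 n hn
    have h6 := h2 n hn
    exact ⟨h6.trans (Nat.add_le_add_right (hx n hn) y), h3 n hn⟩

/-- the common part of the two halves -/
theorem core (c C : ℝ) (k : ℕ) (hc : 0 < c)
    (hFB : ∃ (lam0 : ℝ) (x0 : ℕ), ∀ x : ℕ, x0 ≤ x → ∀ lam : ℝ, lam0 ≤ lam →
      lam ≤ c * Real.log (Real.log x) → ∀ H : Finset ℕ, C * (k : ℝ) ^ 2 ≤ H.card →
      (∀ h ∈ H, (h : ℝ) + 1 * Real.log x ≤ lam * Real.log x) →
      (∀ h ∈ H, ∀ h' ∈ H, h < h' → (h : ℝ) + 1 * Real.log x ≤ h') →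
      x * Real.exp (-Real.exp (C * lam)) ≤ (((Ioc (x / 32) x).filter (fun n =>
        Wd x n lam H ⌊1 * Real.log x⌋₊ ∧ (∀ h ∈ H, np n h ⌊1 * Real.log x⌋₊ ≤ 1) ∧
        k + 1 ≤ ∑ h ∈ H, np n h ⌊1 * Real.log x⌋₊)).card : ℝ))
    (D : ℝ) (Q : ℝ → ℕ → Prop) (HH : ℝ → Finset ℕ) (X1 : ℝ)
    (h : ∀ x : ℝ, X1 ≤ x → ∀ y : ℕ, y = ⌊x / 2⌋₊ → Real.log x ≤ 2 * Real.log y →
      Real.log y ≤ Real.log x → 1 ≤ Real.log y →
      C * (k : ℝ) ^ 2 ≤ (HH x).card ∧
      (∀ h ∈ HH x, (h : ℝ) + Real.log y ≤ D * Real.log y) ∧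
      (∀ h ∈ HH x, ∀ h' ∈ HH x, h < h' → (h : ℝ) + Real.log y ≤ h') ∧
      ∀ (n s l : ℕ) (f : ℕ → ℕ), (l : ℝ) ≤ Real.log y →
        (∀ j ≤ k, f j ∈ HH x ∧ n + f j < Nat.nth Nat.Prime (s + j) ∧
          Nat.nth Nat.Prime (s + j) ≤ n + f j + l) →
        (∀ j < k, f j < f (j + 1)) → Q x s) :
    ∃ c' X : ℝ, 0 < c' ∧ ∀ x : ℝ, X ≤ x → c' * (x / Real.log x) ≤
      ({n : ℕ | (Nat.nth Nat.Prime (n + k) : ℝ) ≤ x ∧ Q x n}.ncard : ℝ) := by
  obtain ⟨lam0, x0, hx0⟩ := hFB
  obtain ⟨lam, hlam⟩ : ∃ lam : ℝ, lam = max lam0 (max D 1) := ⟨_, rfl⟩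
  have hlama : lam0 ≤ lam := hlam ▸ le_max_left _ _
  have hlamb : D ≤ lam := hlam ▸ (le_max_left _ _).trans (le_max_right _ _)
  have hlamc : 1 ≤ lam := hlam ▸ (le_max_right _ _).trans (le_max_right _ _)
  have ev1 : ∀ᶠ x : ℝ in atTop, ‖Real.log x ^ 1‖ ≤ 1 / (2 * lam) * ‖id x‖ :=
    (Real.isLittleO_pow_log_id_atTop (n := 1)).bound (by positivity)
  have ev2 : ∀ᶠ x : ℝ in atTop, 4 ≤ Real.log x := Real.tendsto_log_atTop.eventually_ge_atTop 4
  have ev3 : ∀ᶠ x : ℝ in atTop, 2 * lam / c ≤ Real.log (Real.log x) :=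
    (Real.tendsto_log_atTop.comp Real.tendsto_log_atTop).eventually_ge_atTop _
  obtain ⟨X, hX⟩ := eventually_atTop.mp (ev1.and (ev2.and ev3))
  obtain ⟨e, he⟩ : ∃ e : ℝ, e = Real.exp (-Real.exp (C * lam)) := ⟨_, rfl⟩
  have he0 : 0 < e := he ▸ Real.exp_pos _
  refine ⟨e / (4 * lam), max (max X X1) (max 16 (2 * x0 + 2)), by positivity, fun x hx => ?_⟩
  obtain ⟨e1, e2, e3⟩ := hX x (le_trans (le_trans (le_max_left _ _) (le_max_left _ _)) hx)
  have hxX1 : X1 ≤ x := le_trans (le_trans (le_max_right _ _) (le_max_left _ _)) hx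
  have hx16 : 16 ≤ x := le_trans (le_trans (le_max_left _ _) (le_max_right _ _)) hx
  have hx0' : 2 * (x0 : ℝ) + 2 ≤ x := le_trans (le_trans (le_max_right _ _) (le_max_right _ _)) hx
  rw [id, pow_one, Real.norm_eq_abs, Real.norm_eq_abs, abs_of_nonneg (by linarith : 0 ≤ Real.log x),
    abs_of_nonneg (by linarith : 0 ≤ x)] at e1
  have e3' : 2 * lam ≤ c * Real.log (Real.log x) := by
    rw [div_le_iff₀ hc] at e3
    linarith
  obtain ⟨y, hy⟩ : ∃ y : ℕ, y = ⌊x / 2⌋₊ := ⟨_, rfl⟩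
  have y1 : (y : ℝ) ≤ x / 2 := hy ▸ Nat.floor_le (by linarith)
  have y2 : x / 2 < y + 1 := hy ▸ Nat.lt_floor_add_one _
  have y3 : x / 4 ≤ y := by linarith
  have y4 : x0 ≤ y := by
    have : (x0 : ℝ) ≤ y := by linarith
    exact_mod_cast this
  have ly1 : Real.log (x / 4) ≤ Real.log y := Real.log_le_log (by linarith) y3
  have ly2 : Real.log y ≤ Real.log x := Real.log_le_log (by linarith) (by linarith)
  have q1 : Real.log x / 2 ≤ Real.log (x / 4) := by
    rw [Real.log_div (by linarith) (by norm_num)]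
    have h4 : Real.log 4 ≤ 2 := by
      have := Real.log_two_lt_d9
      have h5 : Real.log 4 = 2 * Real.log 2 := by
        rw [show (4 : ℝ) = 2 ^ 2 by norm_num, Real.log_pow]
        norm_num
      linarith
    linarith
  have ly3 : Real.log x ≤ 2 * Real.log y := by linarith
  have ly4 : Real.log (Real.log x) / 2 ≤ Real.log (Real.log y) := by
    have h5 : Real.log (Real.log x / 2) ≤ Real.log (Real.log y) :=
      Real.log_le_log (by linarith) (by linarith)
    refine le_trans ?_ h5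
    rw [Real.log_div (by linarith) (by norm_num)]
    have h6 : Real.log 4 ≤ Real.log (Real.log x) := Real.log_le_log (by norm_num) e2
    have h7 : Real.log 4 = 2 * Real.log 2 := by
      rw [show (4 : ℝ) = 2 ^ 2 by norm_num, Real.log_pow]
      norm_num
    linarith
  have ly0 : 1 ≤ Real.log y := by linarith
  obtain ⟨k1, k2, k3, k4⟩ := h x hxX1 y hy ly3 ly2 ly0
  have hl0 : lam ≤ c * Real.log (Real.log y) := by
    have h5 : c * (Real.log (Real.log x) / 2) ≤ c * Real.log (Real.log y) :=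
      mul_le_mul_of_nonneg_left ly4 hc.le
    linarith
  have hH2 : ∀ h ∈ HH x, (h : ℝ) + 1 * Real.log y ≤ lam * Real.log y := by
    intro h hh
    have h5 := k2 h hh
    have h6 : D * Real.log y ≤ lam * Real.log y := mul_le_mul_of_nonneg_right hlamb (by linarith)
    linarith
  have hH3 : ∀ h ∈ HH x, ∀ h' ∈ HH x, h < h' → (h : ℝ) + 1 * Real.log y ≤ h' := by
    intro h hh h' hh' hlt
    have := k3 h hh h' hh' hlt
    linarith
  have hmain := hx0 y y4 lam hlama hl0 (HH x) k1 hH2 hH3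
  obtain ⟨l, hl⟩ : ∃ l : ℕ, l = ⌊1 * Real.log (y : ℝ)⌋₊ := ⟨_, rfl⟩
  have hl1 : (l : ℝ) ≤ Real.log y := by
    rw [hl, one_mul]
    exact Nat.floor_le (by linarith)
  rw [← hl, ← he] at hmain
  obtain ⟨W, hW⟩ : ∃ W : ℕ, W = ⌊lam * Real.log (y : ℝ)⌋₊ := ⟨_, rfl⟩
  have hlamy : 0 ≤ lam * Real.log (y : ℝ) := by
    have : 0 ≤ Real.log (y : ℝ) := by linarith
    positivity
  have hW1 : (W : ℝ) ≤ lam * Real.log y := hW ▸ Nat.floor_le hlamy
  obtain ⟨N, hN⟩ : ∃ N : Finset ℕ, N = (Ioc (y / 32) y).filter (fun n =>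
        Wd y n lam (HH x) l ∧ (∀ h ∈ HH x, np n h l ≤ 1) ∧
        k + 1 ≤ ∑ h ∈ HH x, np n h l) := ⟨_, rfl⟩
  rw [← hN] at hmain
  obtain ⟨S, hS1, hS2⟩ := count3 N W k y (Q x)
    (fun n hn => by
      rw [hN, mem_filter, mem_Ioc] at hn
      exact hn.1.2)
    (fun n hn => by
      rw [hN, mem_filter] at hn
      obtain ⟨-, g1, g2, g3⟩ := hn
      have g1' : ∀ j ∈ Icc 1 W, (n + j).Prime → ∃ h ∈ HH x, j ∈ Ioc h (h + l) := by
        rw [hW]
        exact g1
      obtain ⟨s, f, r1, r2, r3, r4⟩ := ext k n W l (HH x) g1' g2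
        (fun h hh h' hh' hlt => by
          have h5 := k3 h hh h' hh' hlt
          have h6 : (h : ℝ) + l ≤ h' := by linarith
          exact_mod_cast h6)
        (fun h hh => by
          rw [hW]
          refine Nat.le_floor ?_
          push_cast
          have h5 := hH2 h hh
          linarith) g3
      exact ⟨s, r1, r2, k4 n s l f hl1 r3 r4⟩)
  have hWx : (W : ℝ) ≤ x / 2 := by
    have h5 : lam * Real.log y ≤ lam * Real.log x := mul_le_mul_of_nonneg_left ly2 (by linarith)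
    have h6 : lam * Real.log x ≤ lam * (1 / (2 * lam) * x) :=
      mul_le_mul_of_nonneg_left e1 (by linarith)
    have h7 : lam * (1 / (2 * lam) * x) = x / 2 := by
      field_simp
    linarith
  have hfin : {n : ℕ | (Nat.nth Nat.Prime (n + k) : ℝ) ≤ x ∧ Q x n}.Finite := by
    refine (Set.finite_le_nat ⌊x⌋₊).subset ?_
    rintro n ⟨hn, -⟩
    have h1 : n ≤ Nat.nth Nat.Prime (n + k) :=
      (Nat.le_add_right n k).trans
        ((Nat.nth_strictMono Nat.infinite_setOf_prime).id_le (n + k))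
    exact h1.trans (Nat.le_floor hn)
  have hsub : (S : Set ℕ) ⊆ {n : ℕ | (Nat.nth Nat.Prime (n + k) : ℝ) ≤ x ∧ Q x n} := by
    intro s hs
    obtain ⟨b1, b2⟩ := hS2 s hs
    refine ⟨?_, b2⟩
    have c1 : (Nat.nth Nat.Prime (s + k) : ℝ) ≤ y + W := by exact_mod_cast b1
    linarith
  have hcard : (S.card : ℝ) ≤
      ({n : ℕ | (Nat.nth Nat.Prime (n + k) : ℝ) ≤ x ∧ Q x n}.ncard : ℝ) := by
    have := Set.ncard_le_ncard hsub hfin
    rw [Set.ncard_coe_finset] at this
    exact_mod_cast this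
  refine le_trans ?_ hcard
  have hlx0 : 0 < Real.log x := by linarith
  have hWt : (W : ℝ) ≤ lam * Real.log x :=
    hW1.trans (mul_le_mul_of_nonneg_left ly2 (by linarith))
  have hS1' : (y : ℝ) * e ≤ lam * Real.log x * S.card := by
    refine hmain.trans ?_
    have h1 := (Nat.cast_le (α := ℝ)).2 hS1
    refine h1.trans ?_
    push_cast
    exact mul_le_mul_of_nonneg_right hWt (Nat.cast_nonneg _)
  have hF : (lam * Real.log x) * (e / (4 * lam) * (x / Real.log x)) ≤
      (lam * Real.log x) * S.card := by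
    refine le_trans ?_ hS1'
    calc (lam * Real.log x) * (e / (4 * lam) * (x / Real.log x))
        = x / 4 * e := by
          field_simp
      _ ≤ y * e := mul_le_mul_of_nonneg_right y3 he0.le
  exact le_of_mul_le_mul_left hF (by positivity)

/-- the sizes -/
theorem sizes {L lx ly : ℝ} (hL : 0 ≤ L) (h1 : lx ≤ 2 * ly) (h2 : ly ≤ lx) (h3 : 1 ≤ ly)
    {T : ℕ} (hT : T = ⌈(L + 2) * lx⌉₊) :
    L * lx ≤ T ∧ ly ≤ T ∧ (T : ℝ) ≤ 2 * (L + 3) * ly ∧ 0 < T := by
  have h4 : (L + 2) * lx ≤ T := hT ▸ Nat.le_ceil _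
  have h5 : (T : ℝ) < (L + 2) * lx + 1 := hT ▸ Nat.ceil_lt_add_one (by nlinarith)
  have h6 : 0 ≤ L * lx := by nlinarith
  refine ⟨by nlinarith, by nlinarith, by nlinarith, ?_⟩
  have h7 : (0 : ℝ) < T := by nlinarith
  exact_mod_cast h7

/-- powers -/
theorem sepA {r i i' T : ℕ} (hr : 3 ≤ r) (h : r ^ i * T < r ^ i' * T) :
    r * (r ^ i * T) ≤ r ^ i' * T := by
  have hT : 0 < T := by
    rcases Nat.eq_zero_or_pos T with h0 | h0
    · rw [h0] at h
      simp at h
    · exact h0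
  have h1 : r ^ i < r ^ i' := lt_of_mul_lt_mul_right h (Nat.zero_le _)
  have h2 : i < i' := (Nat.pow_lt_pow_iff_right (by omega)).1 h1
  have h3 : r ^ (i + 1) ≤ r ^ i' := Nat.pow_le_pow_right (by omega) h2
  calc r * (r ^ i * T) = r ^ (i + 1) * T := by ring
    _ ≤ r ^ i' * T := Nat.mul_le_mul_right _ h3

/-- real inequality for two consecutive gaps (increasing) -/
theorem incr {R n a b c l p1 p2 p3 r : ℝ} (hR : 0 ≤ R) (hr : R + 3 ≤ r) (ha : l ≤ a)
    (hab : a ≤ b) (hl : 0 ≤ l) (hbc : r * b ≤ c) (h1 : n + a + 1 ≤ p1) (h2 : n + b + 1 ≤ p2)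
    (h2' : p2 ≤ n + b + l) (h3 : n + c + 1 ≤ p3) :
    R * (p2 - p1 - 1) ≤ p3 - p2 - 1 := by
  have g1 : p2 - p1 - 1 ≤ b := by linarith
  have g2 : R * (p2 - p1 - 1) ≤ R * b := mul_le_mul_of_nonneg_left g1 hR
  have g3 : (R + 3) * b ≤ r * b := mul_le_mul_of_nonneg_right hr (by linarith)
  nlinarith

/-- real inequality for two consecutive gaps (decreasing) -/
theorem decr {R n a b c l p1 p2 p3 r S : ℝ} (hR : 0 ≤ R) (hr : R + 3 ≤ r) (hc : l ≤ S - c)
    (hbc : S - c ≤ S - b) (hl : 0 ≤ l) (hab : r * (S - b) ≤ S - a) (h1 : p1 ≤ n + a + l)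
    (h2 : n + b + 1 ≤ p2) (h3 : p3 ≤ n + c + l) :
    R * (p3 - p2 - 1) ≤ p2 - p1 - 1 := by
  have g1 : p3 - p2 - 1 ≤ S - b := by linarith
  have g2 : R * (p3 - p2 - 1) ≤ R * (S - b) := mul_le_mul_of_nonneg_left g1 hR
  have g3 : (R + 3) * (S - b) ≤ r * (S - b) := mul_le_mul_of_nonneg_right hr (by linarith)
  nlinarith

/-- PACKET ZE -/
theorem ze (hFB : StmtFB) : StmtZE := by
  obtain ⟨c, C, hc, hC, hFB⟩ := hFB
  intro k hk R L hR hL
  have hFB1 := hFB k 1 hk one_pos le_rfl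
  obtain ⟨M, hM⟩ : ∃ M : ℕ, M = ⌈C * (k : ℝ) ^ 2⌉₊ := ⟨_, rfl⟩
  have hM1 : C * (k : ℝ) ^ 2 ≤ M := hM ▸ Nat.le_ceil _
  obtain ⟨r, hr⟩ : ∃ r : ℕ, r = ⌈R⌉₊ + 3 := ⟨_, rfl⟩
  have hr3 : 3 ≤ r := by omega
  have hr0 : 0 < r := by omega
  have hrR : R + 3 ≤ (r : ℝ) := by
    rw [hr]
    push_cast
    have := Nat.le_ceil R
    linarith
  have hr3' : (3 : ℝ) ≤ r := by exact_mod_cast hr3
  obtain ⟨D, hD⟩ : ∃ D : ℝ, D = (r : ℝ) ^ M * (2 * (L + 3)) + 1 := ⟨_, rfl⟩
  -- the increasing chains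
  obtain ⟨c1, X1, hc1, hX1⟩ := core c C k hc hFB1 D
    (fun x n => L * Real.log x ≤ (Nat.nth Nat.Prime (n + 1) : ℝ) - Nat.nth Nat.Prime n - 1 ∧
      ∀ i, i + 1 < k → R * ((Nat.nth Nat.Prime (n + i + 1) : ℝ) - Nat.nth Nat.Prime (n + i) - 1)
      ≤ (Nat.nth Nat.Prime (n + i + 2) : ℝ) - Nat.nth Nat.Prime (n + i + 1) - 1)
    (fun x => (range M).image (fun i => r ^ i * ⌈(L + 2) * Real.log x⌉₊)) 0
    (fun x hx y hy s1 s2 s3 => by
      obtain ⟨T, hT⟩ : ∃ T : ℕ, T = ⌈(L + 2) * Real.log x⌉₊ := ⟨_, rfl⟩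
      obtain ⟨t1, t2, t3, t4⟩ := sizes hL s1 s2 s3 hT
      simp only [← hT]
      have hmem : ∀ h ∈ (range M).image (fun i => r ^ i * T), ∃ i, i < M ∧ h = r ^ i * T := by
        intro h hh
        obtain ⟨i, hi, rfl⟩ := mem_image.1 hh
        exact ⟨i, mem_range.1 hi, rfl⟩
      refine ⟨?_, ?_, ?_, ?_⟩
      · rw [card_image_of_injective, card_range]
        · exact hM1
        · intro i j hij
          exact Nat.pow_right_injective (by omega) (Nat.eq_of_mul_eq_mul_right t4 hij)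
      · intro h hh
        obtain ⟨i, hi, rfl⟩ := hmem h hh
        have h1 : (r : ℝ) ^ i ≤ (r : ℝ) ^ M := pow_le_pow_right₀ (by linarith) hi.le
        push_cast
        have h2 : (r : ℝ) ^ i * T ≤ (r : ℝ) ^ M * (2 * (L + 3) * Real.log y) :=
          mul_le_mul h1 t3 (Nat.cast_nonneg _) (by positivity)
        rw [hD]
        linarith
      · intro h hh h' hh' hlt
        obtain ⟨i, hi, rfl⟩ := hmem h hh
        obtain ⟨j, hj, rfl⟩ := hmem h' hh'
        have h1 := sepA hr3 hlt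
        have h2 : T ≤ r ^ i * T := Nat.le_mul_of_pos_left _ (pow_pos hr0 i)
        have h3 : 3 * (r ^ i * T) ≤ r * (r ^ i * T) := Nat.mul_le_mul_right _ hr3
        have h4 : r ^ i * T + T ≤ r ^ j * T := by omega
        have h5 : ((r ^ i * T : ℕ) : ℝ) + T ≤ ((r ^ j * T : ℕ) : ℝ) := by exact_mod_cast h4
        linarith
      · intro n s l f hl hf1 hf2
        have hl0 : (0 : ℝ) ≤ l := Nat.cast_nonneg _
        have hfT : ∀ j, j ≤ k → T ≤ f j := by
          intro j hj
          obtain ⟨i, hi, h1⟩ := hmem (f j) (hf1 j hj).1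
          rw [h1]
          exact Nat.le_mul_of_pos_left _ (pow_pos hr0 i)
        have hfr : ∀ j, j < k → r * f j ≤ f (j + 1) := by
          intro j hj
          obtain ⟨i, hi, h1⟩ := hmem (f j) (hf1 j hj.le).1
          obtain ⟨i', hi', h2⟩ := hmem (f (j + 1)) (hf1 (j + 1) hj).1
          have h3 := hf2 j hj
          rw [h1, h2] at h3 ⊢
          exact sepA hr3 h3
        have hlow : ∀ j, j ≤ k → (n : ℝ) + f j + 1 ≤ Nat.nth Nat.Prime (s + j) := by
          intro j hj
          have := (hf1 j hj).2.1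
          exact_mod_cast this
        have hupp : ∀ j, j ≤ k → (Nat.nth Nat.Prime (s + j) : ℝ) ≤ n + f j + l := by
          intro j hj
          exact_mod_cast (hf1 j hj).2.2
        have hTl : (l : ℝ) ≤ T := hl.trans t2
        have hfT' : ∀ j, j ≤ k → (T : ℝ) ≤ f j := fun j hj => by exact_mod_cast hfT j hj
        have hfr' : ∀ j, j < k → (r : ℝ) * f j ≤ f (j + 1) := fun j hj => by
          exact_mod_cast hfr j hj
        refine ⟨?_, ?_⟩
        · have a1 := hupp 0 (by omega)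
          have a2 := hlow 1 hk
          have a3 := hfr' 0 (by omega)
          have a4 := hfT' 0 (by omega)
          simp only [add_zero, zero_add] at a1 a2 a3
          have a5 : 3 * (f 0 : ℝ) ≤ r * f 0 := mul_le_mul_of_nonneg_right hr3' (by linarith)
          linarith
        · intro i hi
          have b1 := hfr' i (by omega)
          have b2 := hfT' i (by omega)
          have b3 : 1 * (f i : ℝ) ≤ r * f i := mul_le_mul_of_nonneg_right (by linarith)
            (Nat.cast_nonneg _)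
          have b4 := hlow (i + 1) (by omega)
          have b5 := hupp (i + 1) (by omega)
          have b6 := hlow (i + 2) (by omega)
          rw [← add_assoc] at b4 b5 b6
          exact incr hR hrR (hTl.trans b2) (by linarith) hl0 (hfr' (i + 1) (by omega))
            (hlow i (by omega)) b4 b5 b6)
  -- the decreasing chains
  obtain ⟨c2, X2, hc2, hX2⟩ := core c C k hc hFB1 D
    (fun x n => L * Real.log x
        ≤ (Nat.nth Nat.Prime (n + k) : ℝ) - Nat.nth Nat.Prime (n + k - 1) - 1 ∧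
      ∀ i, i + 1 < k → R * ((Nat.nth Nat.Prime (n + i + 2) : ℝ) - Nat.nth Nat.Prime (n + i + 1) - 1)
      ≤ (Nat.nth Nat.Prime (n + i + 1) : ℝ) - Nat.nth Nat.Prime (n + i) - 1)
    (fun x => (range M).image (fun i => (r ^ M - r ^ i) * ⌈(L + 2) * Real.log x⌉₊)) 0
    (fun x hx y hy s1 s2 s3 => by
      obtain ⟨T, hT⟩ : ∃ T : ℕ, T = ⌈(L + 2) * Real.log x⌉₊ := ⟨_, rfl⟩
      obtain ⟨t1, t2, t3, t4⟩ := sizes hL s1 s2 s3 hT
      simp only [← hT]
      have hle : ∀ i, i < M → r ^ i ≤ r ^ M := fun i hi => Nat.pow_le_pow_right hr0 hi.le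
      have hmem : ∀ h ∈ (range M).image (fun i => (r ^ M - r ^ i) * T),
          ∃ i, i < M ∧ h + r ^ i * T = r ^ M * T := by
        intro h hh
        obtain ⟨i, hi, rfl⟩ := mem_image.1 hh
        have h1 := hle i (mem_range.1 hi)
        refine ⟨i, mem_range.1 hi, ?_⟩
        rw [← add_mul, Nat.sub_add_cancel h1]
      refine ⟨?_, ?_, ?_, ?_⟩
      · rw [card_image_of_injOn, card_range]
        · exact hM1
        · intro i hi j hj hij
          rw [mem_coe, mem_range] at hi hj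
          have h1 := hle i hi
          have h2 := hle j hj
          have h3 : r ^ M - r ^ i = r ^ M - r ^ j := Nat.eq_of_mul_eq_mul_right t4 hij
          have h4 : r ^ i = r ^ j := by omega
          exact Nat.pow_right_injective (by omega) h4
      · intro h hh
        obtain ⟨i, hi, h1⟩ := hmem h hh
        have h2 : (h : ℝ) ≤ (r : ℝ) ^ M * T := by
          have h3 : h ≤ r ^ M * T := by omega
          exact_mod_cast h3
        have h4 : (r : ℝ) ^ M * T ≤ (r : ℝ) ^ M * (2 * (L + 3) * Real.log y) :=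
          mul_le_mul_of_nonneg_left t3 (by positivity)
        rw [hD]
        linarith
      · intro h hh h' hh' hlt
        obtain ⟨i, hi, h1⟩ := hmem h hh
        obtain ⟨j, hj, h2⟩ := hmem h' hh'
        have h3 : r ^ j * T < r ^ i * T := by omega
        have h4 := sepA hr3 h3
        have h5 : T ≤ r ^ j * T := Nat.le_mul_of_pos_left _ (pow_pos hr0 j)
        have h6 : 3 * (r ^ j * T) ≤ r * (r ^ j * T) := Nat.mul_le_mul_right _ hr3
        have h7 : h + T ≤ h' := by omega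
        have h8 : (h : ℝ) + T ≤ h' := by exact_mod_cast h7
        linarith
      · intro n s l f hl hf1 hf2
        have hl0 : (0 : ℝ) ≤ l := Nat.cast_nonneg _
        obtain ⟨S, hS⟩ : ∃ S : ℕ, S = r ^ M * T := ⟨_, rfl⟩
        rw [← hS] at hmem
        have hfT : ∀ j, j ≤ k → f j + T ≤ S := by
          intro j hj
          obtain ⟨i, hi, h1⟩ := hmem (f j) (hf1 j hj).1
          have : T ≤ r ^ i * T := Nat.le_mul_of_pos_left _ (pow_pos hr0 i)
          omega
        have hfr' : ∀ j, j < k → (r : ℝ) * ((S : ℝ) - f (j + 1)) ≤ (S : ℝ) - f j := by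
          intro j hj
          obtain ⟨i, hi, h1⟩ := hmem (f j) (hf1 j hj.le).1
          obtain ⟨i', hi', h2⟩ := hmem (f (j + 1)) (hf1 (j + 1) hj).1
          have h3 := hf2 j hj
          have h4 : r ^ i' * T < r ^ i * T := by omega
          have h5 := sepA hr3 h4
          have h1' : (S : ℝ) - f j = ((r ^ i * T : ℕ) : ℝ) := by
            rw [← h1]
            push_cast
            ring
          have h2' : (S : ℝ) - f (j + 1) = ((r ^ i' * T : ℕ) : ℝ) := by
            rw [← h2]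
            push_cast
            ring
          rw [h1', h2']
          exact_mod_cast h5
        have hlow : ∀ j, j ≤ k → (n : ℝ) + f j + 1 ≤ Nat.nth Nat.Prime (s + j) := by
          intro j hj
          have := (hf1 j hj).2.1
          exact_mod_cast this
        have hupp : ∀ j, j ≤ k → (Nat.nth Nat.Prime (s + j) : ℝ) ≤ n + f j + l := by
          intro j hj
          exact_mod_cast (hf1 j hj).2.2
        have hTl : (l : ℝ) ≤ T := hl.trans t2
        have hfT' : ∀ j, j ≤ k → (T : ℝ) ≤ S - f j := fun j hj => by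
          have h1 : (f j : ℝ) + T ≤ S := by exact_mod_cast hfT j hj
          linarith
        refine ⟨?_, ?_⟩
        · obtain ⟨m, rfl⟩ : ∃ m, k = m + 1 := ⟨k - 1, by omega⟩
          have a1 := hupp m (by omega)
          have a2 := hlow (m + 1) le_rfl
          have a3 := hfr' m (by omega)
          have a4 := hfT' (m + 1) le_rfl
          have a5 : 3 * ((S : ℝ) - f (m + 1)) ≤ r * (S - f (m + 1)) :=
            mul_le_mul_of_nonneg_right hr3' (by linarith)
          rw [show s + (m + 1) - 1 = s + m by omega]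
          linarith
        · intro i hi
          have b1 := hfr' (i + 1) (by omega)
          have b2 := hfT' (i + 2) (by omega)
          have b3 : 1 * ((S : ℝ) - f (i + 2)) ≤ r * (S - f (i + 2)) :=
            mul_le_mul_of_nonneg_right (by linarith) (by linarith)
          have b4 := hlow (i + 1) (by omega)
          have b5 := hupp (i + 2) (by omega)
          rw [← add_assoc] at b4 b5
          have b1' : (r : ℝ) * ((S : ℝ) - f (i + 2)) ≤ (S : ℝ) - f (i + 1) := b1
          exact decr hR hrR (hTl.trans b2) (by linarith) hl0 (hfr' i (by omega))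
            (hupp i (by omega)) b4 b5)
  refine ⟨min c1 c2, max (max X1 X2) 1, lt_min hc1 hc2, fun x hx => ?_⟩
  have hxa : X1 ≤ x := le_trans (le_trans (le_max_left _ _) (le_max_left _ _)) hx
  have hxb : X2 ≤ x := le_trans (le_trans (le_max_right _ _) (le_max_left _ _)) hx
  have hx1 : 1 ≤ x := le_trans (le_max_right _ _) hx
  have hq : 0 ≤ x / Real.log x := div_nonneg (by linarith) (Real.log_nonneg hx1)
  exact ⟨(mul_le_mul_of_nonneg_right (min_le_left _ _) hq).trans (hX1 x hxa),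
    (mul_le_mul_of_nonneg_right (min_le_right _ _) hq).trans (hX2 x hxb)⟩

end Pool.Agent.Helper16.PX
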